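import Pool.Agent.Lib.MP_65453a_nt.Sieve
import Pool.Agent.Lib.MP_65453a_nt.Cheb

set_option autoImplicit false

/-!
`MP_65453a_nt`: how large the least `k` with `p_k p_{n-k} - 6` prime must be for almost all `n`.
-/

namespace Pool.Agent.MP65453a

open Finset Filter Topology

/-- `k` is a witness for `n`: `0 < k < n` and `p_k p_{n-k} - 6` is a prime -/
def Witness (n k : ℕ) : Prop := 0 < k ∧ k < n ∧ ∃ r : ℕ, r.Prime ∧ P k * P (n - k) = r + 6

/-- pairs `(n, k)` with `k` in a finite set `A` -/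
theorem set_bound : ∃ C : ℝ, 0 < C ∧ ∀ (N : ℕ) (A : Finset ℕ), 2 ≤ N →
    {x : ℕ × ℕ | x.1 ≤ N ∧ x.2 ∈ A ∧ Witness x.1 x.2}.Finite ∧
    (({x : ℕ × ℕ | x.1 ≤ N ∧ x.2 ∈ A ∧ Witness x.1 x.2}.ncard : ℕ) : ℝ) ≤
      C * A.card * (N / Real.log N) := by
  classical
  obtain ⟨C, hC, hCb⟩ := SA_bound
  refine ⟨45 * C, by positivity, ?_⟩
  intro N A hN
  have hNr : (2 : ℝ) ≤ N := by exact_mod_cast hN
  have hlogN : 0 < Real.log N := Real.log_pos (by linarith)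
  set X := P N with hX
  have hNX : N ≤ X := le_P
  have hXr : (N : ℝ) ≤ X := by exact_mod_cast hNX
  have hlogX : Real.log N ≤ Real.log X := Real.log_le_log (by linarith) hXr
  have hlogX0 : 0 < Real.log X := lt_of_lt_of_le hlogN hlogX
  have hq : (X : ℝ) / (Real.log X) ^ 2 ≤ 45 * (N / Real.log N) := by
    have h1 : (X : ℝ) ≤ 45 * N * Real.log N := P_upper hN
    have h2 : (Real.log N) ^ 2 ≤ (Real.log X) ^ 2 := by gcongr
    calc (X : ℝ) / (Real.log X) ^ 2 ≤ (45 * N * Real.log N) / (Real.log N) ^ 2 := by gcongr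
      _ = 45 * (N / Real.log N) := by field_simp
  set S := {x : ℕ × ℕ | x.1 ≤ N ∧ x.2 ∈ A ∧ Witness x.1 x.2} with hS
  set T : Finset (Σ _ : ℕ, ℕ) := A.sigma (fun k => SA (P k) X) with hT
  have hmap : ∀ x ∈ S, (⟨x.2, P (x.1 - x.2)⟩ : Σ _ : ℕ, ℕ) ∈ (T : Set (Σ _ : ℕ, ℕ)) := by
    rintro ⟨n, k⟩ ⟨h1, h2, h3, h4, r, hr, h5⟩
    simp only at h1 h2 h3 h4 h5 ⊢
    rw [hT, mem_coe, mem_sigma]
    refine ⟨h2, ?_⟩
    rw [mem_SA]
    refine ⟨mem_Icc.2 ⟨(P_prime _).one_lt.le, P_le (by omega)⟩, P_prime _, r, hr, h5⟩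
  have hinj : Set.InjOn (fun x : ℕ × ℕ => (⟨x.2, P (x.1 - x.2)⟩ : Σ _ : ℕ, ℕ)) S := by
    rintro ⟨n, k⟩ ⟨-, -, h3, h4, -⟩ ⟨n', k'⟩ ⟨-, -, h3', h4', -⟩ h
    simp only [Sigma.mk.injEq, heq_eq_eq] at h
    simp only at h3 h4 h3' h4'
    obtain ⟨rfl, h⟩ := h
    have : n - k = n' - k := by
      rcases lt_trichotomy (n - k) (n' - k) with hlt | heq | hgt
      · exact absurd h (P_lt (by omega) hlt).ne
      · exact heq
      · exact absurd h (P_lt (by omega) hgt).ne'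
    have hn : n = n' := by omega
    rw [hn]
  have hfin : S.Finite := Set.Finite.of_injOn (fun x hx => hmap x hx) hinj T.finite_toSet
  refine ⟨hfin, ?_⟩
  have hcard : S.ncard ≤ T.card := by
    rw [← Set.ncard_coe_finset]
    exact Set.ncard_le_ncard_of_injOn _ hmap hinj T.finite_toSet
  have hTc : (T.card : ℝ) ≤ A.card * (C * (X / (Real.log X) ^ 2)) := by
    rw [hT, card_sigma]
    push_cast
    calc ∑ k ∈ A, ((SA (P k) X).card : ℝ) ≤ ∑ _k ∈ A, C * (X / (Real.log X) ^ 2) :=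
          sum_le_sum fun k _ => hCb X (by omega) (P k) (P_prime k)
      _ = A.card * (C * (X / (Real.log X) ^ 2)) := by
          rw [sum_const, nsmul_eq_mul]
  calc ((S.ncard : ℕ) : ℝ) ≤ T.card := by exact_mod_cast hcard
    _ ≤ A.card * (C * (X / (Real.log X) ^ 2)) := hTc
    _ ≤ A.card * (C * (45 * (N / Real.log N))) := by gcongr
    _ = 45 * C * A.card * (N / Real.log N) := by ring

/-- the `n ≤ N` with a witness in `A` -/
theorem values_bound : ∃ C : ℝ, 0 < C ∧ ∀ (N : ℕ) (A : Finset ℕ), 2 ≤ N →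
    (({n : ℕ | n ≤ N ∧ ∃ k ∈ A, Witness n k}.ncard : ℕ) : ℝ) ≤
      C * A.card * (N / Real.log N) := by
  obtain ⟨C, hC, hCb⟩ := set_bound
  refine ⟨C, hC, fun N A hN => ?_⟩
  obtain ⟨hfin, hb⟩ := hCb N A hN
  refine le_trans ?_ hb
  have hsub : {n : ℕ | n ≤ N ∧ ∃ k ∈ A, Witness n k} ⊆
      Prod.fst '' {x : ℕ × ℕ | x.1 ≤ N ∧ x.2 ∈ A ∧ Witness x.1 x.2} := by
    rintro n ⟨h1, k, hk, hw⟩
    exact ⟨(n, k), ⟨h1, hk, hw⟩, rfl⟩
  exact_mod_cast (Set.ncard_le_ncard hsub (hfin.image _)).trans (Set.ncard_image_le hfin)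

theorem density_zero (ψ : ℕ → ℝ) (hψ : Tendsto (fun n : ℕ => ψ n / Real.log n) atTop (𝓝 0)) :
    Tendsto (fun N : ℕ =>
      (({n : ℕ | n ≤ N ∧ ∃ k : ℕ, (k : ℝ) ≤ ψ n ∧ Witness n k}.ncard : ℕ) : ℝ) / N)
      atTop (𝓝 0) := by
  classical
  obtain ⟨C, hC, hCb⟩ := values_bound
  rw [Metric.tendsto_atTop]
  intro ε hε
  have hδ : 0 < ε / (2 * C) := by positivity
  obtain ⟨n0, hn0⟩ := (Metric.tendsto_atTop.1 hψ) (ε / (2 * C)) hδ
  obtain ⟨n1, hn1⟩ := exists_nat_gt (2 * ((n0 : ℝ) + 2) / ε)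
  refine ⟨max (n0 + 2) (n1 + 2), fun N hN => ?_⟩
  have hN0 : n0 + 2 ≤ N := le_trans (le_max_left _ _) hN
  have hN1 : n1 + 2 ≤ N := le_trans (le_max_right _ _) hN
  have hN2 : 2 ≤ N := by omega
  have hNr : (2 : ℝ) ≤ N := by exact_mod_cast hN2
  have hNpos : (0 : ℝ) < N := by linarith
  have hlogN : 0 < Real.log N := Real.log_pos (by linarith)
  set A := {n : ℕ | n ≤ N ∧ ∃ k : ℕ, (k : ℝ) ≤ ψ n ∧ Witness n k} with hA
  set K := ⌊ε / (2 * C) * Real.log N⌋₊ with hK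
  have hb := hCb N (Icc 1 K) hN2
  rw [Nat.card_Icc, Nat.add_sub_cancel] at hb
  set S := {n : ℕ | n ≤ N ∧ ∃ k ∈ Icc 1 K, Witness n k} with hS
  have hSfin : S.Finite := (Set.finite_le_nat N).subset fun n hn => hn.1
  have hsub : A ⊆ (↑(range (n0 + 2)) : Set ℕ) ∪ S := by
    rintro n ⟨h1, k, h2, h3⟩
    rcases Nat.lt_or_ge n (n0 + 2) with h | h
    · left
      simpa using h
    · right
      refine ⟨h1, k, mem_Icc.2 ⟨h3.1, ?_⟩, h3⟩
      have hn2 : (2 : ℝ) ≤ n := by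
        have : 2 ≤ n := by omega
        exact_mod_cast this
      have hlogn : 0 < Real.log n := Real.log_pos (by linarith)
      have hd := hn0 n (by omega)
      rw [Real.dist_eq, sub_zero] at hd
      have hd' : ψ n / Real.log n < ε / (2 * C) := (le_abs_self _).trans_lt hd
      rw [div_lt_iff₀ hlogn] at hd'
      have hle : Real.log n ≤ Real.log N :=
        Real.log_le_log (by linarith) (by exact_mod_cast h1)
      apply Nat.le_floor
      calc (k : ℝ) ≤ ψ n := h2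
        _ ≤ ε / (2 * C) * Real.log n := hd'.le
        _ ≤ ε / (2 * C) * Real.log N := mul_le_mul_of_nonneg_left hle hδ.le
  have hcard : (A.ncard : ℝ) ≤ (n0 + 2) + C * K * (N / Real.log N) := by
    have h1 : A.ncard ≤ (n0 + 2) + S.ncard := by
      calc A.ncard ≤ ((↑(range (n0 + 2)) : Set ℕ) ∪ S).ncard :=
            Set.ncard_le_ncard hsub ((finite_toSet _).union hSfin)
        _ ≤ (↑(range (n0 + 2)) : Set ℕ).ncard + S.ncard := Set.ncard_union_le _ _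
        _ = (n0 + 2) + S.ncard := by rw [Set.ncard_coe_finset, card_range]
    have h2 : (A.ncard : ℝ) ≤ ((n0 + 2 + S.ncard : ℕ) : ℝ) := by exact_mod_cast h1
    push_cast at h2
    linarith
  have hKle : (K : ℝ) ≤ ε / (2 * C) * Real.log N := Nat.floor_le (by positivity)
  have h3 : C * K * (N / Real.log N) ≤ ε / 2 * N := by
    calc C * K * (N / Real.log N) ≤ C * (ε / (2 * C) * Real.log N) * (N / Real.log N) := by
          gcongr
      _ = ε / 2 * N := by field_simp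
  have h4 : (n0 : ℝ) + 2 < ε / 2 * N := by
    have h5 : 2 * ((n0 : ℝ) + 2) / ε < N := by
      have : (n1 : ℝ) + 2 ≤ N := by exact_mod_cast hN1
      linarith
    rw [div_lt_iff₀ hε] at h5
    linarith
  rw [Real.dist_eq, sub_zero, abs_of_nonneg (by positivity), div_lt_iff₀ hNpos]
  linarith

/-- no thin set of indices contains a witness for a positive proportion of the `n` -/
theorem thin_zero (B : Set ℕ) (hB : Tendsto (fun N : ℕ =>
      (({k : ℕ | k ∈ B ∧ k ≤ N}.ncard : ℕ) : ℝ) / Real.log N) atTop (𝓝 0)) :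
    Tendsto (fun N : ℕ => (({n : ℕ | n ≤ N ∧ ∃ k ∈ B, Witness n k}.ncard : ℕ) : ℝ) / N)
      atTop (𝓝 0) := by
  classical
  obtain ⟨C, hC, hCb⟩ := values_bound
  have hlim : Tendsto (fun N : ℕ => C * ((({k : ℕ | k ∈ B ∧ k ≤ N}.ncard : ℕ) : ℝ) /
      Real.log N)) atTop (𝓝 0) := by
    simpa using hB.const_mul C
  refine squeeze_zero' (Eventually.of_forall fun N => by positivity) ?_ hlim
  filter_upwards [eventually_ge_atTop 2] with N hN
  have hNr : (2 : ℝ) ≤ N := by exact_mod_cast hN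
  have hNpos : (0 : ℝ) < N := by linarith
  have hfin : {k : ℕ | k ∈ B ∧ k ≤ N}.Finite := (Set.finite_le_nat N).subset fun n hn => hn.2
  have hb := hCb N hfin.toFinset hN
  rw [← Set.ncard_eq_toFinset_card _ hfin] at hb
  have hsub : {n : ℕ | n ≤ N ∧ ∃ k ∈ B, Witness n k} ⊆
      {n : ℕ | n ≤ N ∧ ∃ k ∈ hfin.toFinset, Witness n k} := by
    rintro n ⟨h1, k, hk, hw⟩
    refine ⟨h1, k, ?_, hw⟩
    rw [Set.Finite.mem_toFinset]
    exact ⟨hk, le_trans hw.2.1.le h1⟩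
  have hle : (({n : ℕ | n ≤ N ∧ ∃ k ∈ B, Witness n k}.ncard : ℕ) : ℝ) ≤
      (({n : ℕ | n ≤ N ∧ ∃ k ∈ hfin.toFinset, Witness n k}.ncard : ℕ) : ℝ) := by
    exact_mod_cast Set.ncard_le_ncard hsub
      ((Set.finite_le_nat N).subset fun n (hn : n ≤ N ∧ _) => hn.1)
  rw [div_le_iff₀ hNpos]
  calc _ ≤ _ := hle.trans hb
    _ = _ := by ring

end Pool.Agent.MP65453a
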