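import Pool.Agent.Lib.MP_bca3e5_nt.Up

set_option autoImplicit false

/-!
`MP_65453a_nt`: primes `q ≤ X` for which `a q - 6` is prime, uniformly in the prime `a`.
-/

namespace Pool.Agent.MP65453a

open Finset

/-- the excluded classes -/
def Q (a : ℕ) (p x : ℕ) : Prop := x % p = 0 ∨ (a * x) % p = 6 % p

instance (a p : ℕ) : DecidablePred (Q a p) := fun x => by unfold Q; infer_instance

lemma Q_mod (a p x : ℕ) : Q a p (x % p) ↔ Q a p x := by
  unfold Q
  rw [Nat.mod_mod, Nat.mul_mod, Nat.mod_mod, ← Nat.mul_mod]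

lemma om_le_two {a p : ℕ} (ha : a.Prime) (ha5 : 5 ≤ a) (hp : p.Prime) :
    MPbca.om (Q a) p ≤ 2 := by
  classical
  unfold MPbca.om
  have hsub : (range p).filter (Q a p) ⊆
      {0} ∪ (range p).filter (fun x => (a * x) % p = 6 % p) := by
    intro x hx
    rw [mem_filter, mem_range] at hx
    rw [mem_union, mem_singleton, mem_filter, mem_range]
    rcases hx.2 with h | h
    · left
      rwa [Nat.mod_eq_of_lt hx.1] at h
    · exact Or.inr ⟨hx.1, h⟩
  have h1 : ((range p).filter (fun x => (a * x) % p = 6 % p)).card ≤ 1 := by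
    rw [card_le_one]
    intro x hx y hy
    rw [mem_filter, mem_range] at hx hy
    by_cases hpa : p = a
    · subst hpa
      exfalso
      have h := hx.2
      rw [Nat.mul_mod_right] at h
      have hd : p ∣ 6 := Nat.dvd_of_mod_eq_zero h.symm
      have h6 : p ≤ 6 := Nat.le_of_dvd (by norm_num) hd
      interval_cases p
      · revert hd; decide
      · revert hp; decide
    · have hco : Nat.Coprime p a := (Nat.coprime_primes hp ha).2 hpa
      have hmod : a * x ≡ a * y [MOD p] := hx.2.trans hy.2.symm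
      have h2 := Nat.ModEq.cancel_left_of_coprime hco hmod
      have h3 : x % p = y % p := h2
      rwa [Nat.mod_eq_of_lt hx.1, Nat.mod_eq_of_lt hy.1] at h3
  calc _ ≤ _ := card_le_card hsub
    _ ≤ _ := card_union_le _ _
    _ ≤ 2 := by rw [card_singleton]; omega

lemma om_lt {a p : ℕ} (ha : a.Prime) (ha5 : 5 ≤ a) (hp : p.Prime) : MPbca.om (Q a) p < p := by
  classical
  rcases Nat.lt_or_ge 3 p with h | h
  · exact lt_of_le_of_lt (om_le_two ha ha5 hp) (by omega)
  · have h2 := hp.two_le
    have hpa : Nat.Coprime p a := (Nat.coprime_primes hp ha).2 (by omega)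
    have h6 : 6 % p = 0 := by interval_cases p <;> rfl
    unfold MPbca.om
    have hsub : (range p).filter (Q a p) ⊆ {0} := by
      intro x hx
      rw [mem_filter, mem_range] at hx
      rw [mem_singleton]
      have hx0 : x % p = 0 := by
        rcases hx.2 with h | h
        · exact h
        · rw [h6] at h
          have : p ∣ a * x := Nat.dvd_of_mod_eq_zero h
          exact Nat.mod_eq_zero_of_dvd (hpa.dvd_of_dvd_mul_left this)
      rwa [Nat.mod_eq_of_lt hx.1] at hx0
    calc _ ≤ _ := card_le_card hsub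
      _ < p := by rw [card_singleton]; omega

lemma two_le_om {a p : ℕ} (ha : a.Prime) (_ha5 : 5 ≤ a) (hp : p.Prime) (hp2 : 2 < p)
    (hB : p ∉ ({3, a} : Finset ℕ)) : 2 ≤ MPbca.om (Q a) p := by
  classical
  have hp3 : p ≠ 3 ∧ p ≠ a := by
    simpa [mem_insert, mem_singleton, not_or] using hB
  have hco : Nat.Coprime a p := (Nat.coprime_primes ha hp).2 (Ne.symm hp3.2)
  obtain ⟨y, -, hy⟩ := Nat.exists_mul_mod_eq_one_of_coprime hco (by omega)
  -- u = 6 * y % p
  set u := (6 * y) % p with hu
  have hup : u < p := Nat.mod_lt _ hp.pos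
  have hau : (a * u) % p = 6 % p := by
    rw [hu, Nat.mul_mod, Nat.mod_mod, ← Nat.mul_mod]
    have : a * (6 * y) = 6 * (a * y) := by ring
    rw [this, Nat.mul_mod, hy, mul_one, Nat.mod_mod]
  have hu0 : u ≠ 0 := by
    intro h0
    rw [h0, mul_zero, Nat.zero_mod] at hau
    have hd : p ∣ 6 := Nat.dvd_of_mod_eq_zero hau.symm
    have h6 : p ≤ 6 := Nat.le_of_dvd (by norm_num) hd
    obtain ⟨h3, -⟩ := hp3
    interval_cases p
    · exact h3 rfl
    · revert hp; decide
    · revert hd; decide
    · revert hp; decide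
  have hsub : ({0, u} : Finset ℕ) ⊆ (range p).filter (Q a p) := by
    intro x hx
    rw [mem_insert, mem_singleton] at hx
    rw [mem_filter, mem_range]
    rcases hx with rfl | rfl
    · exact ⟨hp.pos, Or.inl (Nat.zero_mod _)⟩
    · exact ⟨hup, Or.inr hau⟩
  unfold MPbca.om
  calc 2 = ({0, u} : Finset ℕ).card := by rw [card_pair (Ne.symm hu0)]
    _ ≤ _ := card_le_card hsub

open Classical in
/-- the primes `q ≤ X` with `a q - 6` prime -/
noncomputable def SA (a X : ℕ) : Finset ℕ :=
  (Icc 1 X).filter (fun q => q.Prime ∧ ∃ r : ℕ, r.Prime ∧ a * q = r + 6)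

lemma mem_SA {a X q : ℕ} : q ∈ SA a X ↔ q ∈ Icc 1 X ∧ q.Prime ∧ ∃ r : ℕ, r.Prime ∧ a * q = r + 6 := by
  classical
  unfold SA
  rw [mem_filter]

lemma sq_log_le {x : ℝ} (hx : 1 ≤ x) : (Real.log x) ^ 2 ≤ 16 * Real.sqrt x := by
  have hx0 : 0 < x := by linarith
  have hs : 0 < Real.sqrt x := Real.sqrt_pos.2 hx0
  have hss : 0 < Real.sqrt (Real.sqrt x) := Real.sqrt_pos.2 hs
  have h1 : Real.log x = 4 * Real.log (Real.sqrt (Real.sqrt x)) := by
    rw [Real.log_sqrt hs.le, Real.log_sqrt hx0.le]; ring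
  have h2 : Real.log (Real.sqrt (Real.sqrt x)) ≤ Real.sqrt (Real.sqrt x) := by
    have := Real.log_le_sub_one_of_pos hss
    linarith
  have h0 : 0 ≤ Real.log x := Real.log_nonneg hx
  have h3 : Real.log x ≤ 4 * Real.sqrt (Real.sqrt x) := by rw [h1]; linarith
  calc (Real.log x) ^ 2 ≤ (4 * Real.sqrt (Real.sqrt x)) ^ 2 := by gcongr
    _ = 16 * Real.sqrt x := by rw [mul_pow, Real.sq_sqrt hs.le]; norm_num

theorem SA_bound : ∃ C : ℝ, 0 < C ∧ ∀ X : ℕ, 2 ≤ X → ∀ a : ℕ, a.Prime →
    ((SA a X).card : ℝ) ≤ C * (X / (Real.log X) ^ 2) := by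
  classical
  obtain ⟨C, hC, X0, hX0⟩ := MPbca.upper_uniform 2 (by norm_num)
  refine ⟨16 + 16 * X0 + C * Real.exp 4, by positivity, ?_⟩
  intro X hX a ha
  have hXr : (2 : ℝ) ≤ X := by exact_mod_cast hX
  have hlog : 0 < Real.log X := Real.log_pos (by linarith)
  have hXpos : (0 : ℝ) < X := by linarith
  have hsq : Real.sqrt X ≤ 16 * (X / (Real.log X) ^ 2) := by
    rw [mul_div_assoc', le_div_iff₀ (by positivity)]
    have h1 := sq_log_le (x := X) (by linarith)
    have h2 : Real.sqrt X * Real.sqrt X = X := Real.mul_self_sqrt hXpos.le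
    calc Real.sqrt X * (Real.log X) ^ 2 ≤ Real.sqrt X * (16 * Real.sqrt X) := by gcongr
      _ = 16 * X := by rw [← h2]; ring_nf; rw [Real.sqrt_sq (by positivity)]
  have hsq1 : (1 : ℝ) ≤ Real.sqrt X := by
    rw [Real.one_le_sqrt]; linarith
  have hone : (1 : ℝ) ≤ 16 * (X / (Real.log X) ^ 2) := hsq1.trans hsq
  have hquo : 0 ≤ X / (Real.log X) ^ 2 := by positivity
  rcases Nat.lt_or_ge a 5 with ha5 | ha5
  · -- a = 2 or 3
    have hcard : (SA a X).card ≤ 1 := by
      rw [card_le_one]
      have h2 := ha.two_le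
      have key : ∀ x ∈ SA a X, x = 3 := by
        intro x hx
        obtain ⟨-, hxp, r, hr, hxr⟩ := mem_SA.1 hx
        have hcases : a = 2 ∨ a = 3 ∨ a = 4 := by omega
        rcases hcases with rfl | rfl | rfl
        · exfalso
          have h2r : 2 ∣ r := by omega
          have : r = 2 := ((Nat.prime_dvd_prime_iff_eq Nat.prime_two hr).1 h2r).symm
          have hx4 : x = 4 := by omega
          subst hx4
          revert hxp; decide
        · have h3r : 3 ∣ r := by omega
          have : r = 3 := ((Nat.prime_dvd_prime_iff_eq Nat.prime_three hr).1 h3r).symm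
          omega
        · exfalso; revert ha; decide
      intro x hx y hy
      rw [key x hx, key y hy]
    calc ((SA a X).card : ℝ) ≤ 1 := by exact_mod_cast hcard
      _ ≤ 16 * (X / (Real.log X) ^ 2) := hone
      _ ≤ _ := by
        apply mul_le_mul_of_nonneg_right _ hquo
        have : 0 ≤ 16 * (X0 : ℝ) + C * Real.exp 4 := by positivity
        linarith
  rcases Nat.lt_or_ge X X0 with hXX | hXX
  · have hcard : (SA a X).card ≤ X := by
      have : SA a X ⊆ Icc 1 X := fun x hx => (mem_SA.1 hx).1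
      simpa using card_le_card this
    calc ((SA a X).card : ℝ) ≤ X := by exact_mod_cast hcard
      _ ≤ X0 := by exact_mod_cast hXX.le
      _ = X0 * 1 := by ring
      _ ≤ X0 * (16 * (X / (Real.log X) ^ 2)) := by gcongr
      _ = (16 * X0) * (X / (Real.log X) ^ 2) := by ring
      _ ≤ _ := by
        apply mul_le_mul_of_nonneg_right _ hquo
        have : 0 ≤ C * Real.exp 4 := by positivity
        linarith
  · -- main case
    set S1 := (SA a X).filter (fun q => q ^ 2 ≤ X) with hS1
    set S2 := (SA a X).filter (fun q => ¬ q ^ 2 ≤ X) with hS2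
    have hsplit : (SA a X).card = S1.card + S2.card := by
      rw [hS1, hS2]
      exact (card_filter_add_card_filter_not _).symm
    have h1 : (S1.card : ℝ) ≤ Real.sqrt X := by
      have hsub : S1 ⊆ Icc 1 (Nat.sqrt X) := by
        intro x hx
        rw [hS1, mem_filter] at hx
        have := mem_Icc.1 (mem_SA.1 hx.1).1
        rw [mem_Icc]
        exact ⟨this.1, Nat.le_sqrt'.2 hx.2⟩
      have hc : S1.card ≤ Nat.sqrt X := by simpa using card_le_card hsub
      calc (S1.card : ℝ) ≤ Nat.sqrt X := by exact_mod_cast hc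
        _ ≤ Real.sqrt X := Real.nat_sqrt_le_real_sqrt
    have h2 : (S2.card : ℝ) ≤ C * (X / (Real.log X) ^ 2) *
        Real.exp ((2 : ℕ) * ∑ p ∈ ({3, a} : Finset ℕ), (1 : ℝ) / p) := by
      refine hX0 X hXX (Q a) (Q_mod a) (fun p hp => om_le_two ha ha5 hp)
        (fun p hp => om_lt ha ha5 hp) {3, a}
        (fun p hp h2 hB => two_le_om ha ha5 hp h2 hB) S2 ?_ ?_
      · intro x hx
        rw [hS2, mem_filter] at hx
        exact (mem_SA.1 hx.1).1
      · intro x hx p hp hpX hQ
        rw [hS2, mem_filter] at hx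
        obtain ⟨-, hxp, r, hr, hxr⟩ := mem_SA.1 hx.1
        rcases hQ with h | h
        · have hd : p ∣ x := Nat.dvd_of_mod_eq_zero h
          have : p = x := (Nat.prime_dvd_prime_iff_eq hp hxp).1 hd
          subst this
          exact hx.2 hpX
        · have hmod : 6 ≡ a * x [MOD p] := h.symm
          have hd : p ∣ a * x - 6 := (Nat.modEq_iff_dvd' (by omega)).1 hmod
          have hr' : a * x - 6 = r := by omega
          rw [hr'] at hd
          have : p = r := (Nat.prime_dvd_prime_iff_eq hp hr).1 hd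
          subst this
          apply hx.2
          have hx2 := hxp.two_le
          have hle : x ≤ p := by
            have : 5 * x ≤ a * x := Nat.mul_le_mul_right x ha5
            omega
          exact le_trans (Nat.pow_le_pow_left hle 2) hpX
    have h3 : Real.exp ((2 : ℕ) * ∑ p ∈ ({3, a} : Finset ℕ), (1 : ℝ) / p) ≤ Real.exp 4 := by
      apply Real.exp_le_exp.2
      have hne : (3 : ℕ) ≠ a := by omega
      rw [sum_pair hne]
      have ha' : (5 : ℝ) ≤ a := by exact_mod_cast ha5
      have hinv : (1 : ℝ) / a ≤ 1 := by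
        rw [div_le_one (by linarith)]; linarith
      push_cast
      linarith
    rw [hsplit]
    push_cast
    have h4 : (S2.card : ℝ) ≤ C * (X / (Real.log X) ^ 2) * Real.exp 4 :=
      h2.trans (mul_le_mul_of_nonneg_left h3 (by positivity))
    have h5 : 0 ≤ 16 * (X0 : ℝ) * (X / (Real.log X) ^ 2) := by positivity
    calc (S1.card : ℝ) + S2.card ≤ 16 * (X / (Real.log X) ^ 2) +
          C * (X / (Real.log X) ^ 2) * Real.exp 4 := add_le_add (h1.trans hsq) h4
      _ ≤ (16 + 16 * X0 + C * Real.exp 4) * (X / (Real.log X) ^ 2) := by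
        nlinarith [h5]

end Pool.Agent.MP65453a
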